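import Mathlib

/-!
# Adyan's identities as iterated identities of solvability type

For an integer `n` and an odd prime `r` let `w = w_{n,r}` be the word
`(x₁^{rn} x₂^{rn} x₁^{-rn} x₂^{-rn})^n` of Adyan. MP_9e15c1_al asks whether, for all large odd `n`, the
family `w_{n,r}` (`r` an odd prime) is independent both as Engel type and as solvability type iterated
identities. There a group satisfies `w` as a solvability type iterated identity if for all `g`, `h`
there is `N ≥ 1` with `w_{⋆N}(y₁, …, y_{2^N}) = e` for every choice of the `y_i` in `{g, h}`.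

We show that the second half fails for every `n`: every group satisfies every word `w` with
`w(x, x) = e` and `w(y, x) = w(x, y)⁻¹` in this sense, with `N = 2`. Indeed `w_{⋆1}` takes the values
`e`, `c`, `c⁻¹` only, `c = w(g, h)`, and these commute. The words `w_{n,r}` vanish on commuting
elements and have both properties. So no group separates `w_{n,r}` from the other words of the family.
-/

set_option autoImplicit false

namespace Pool.Agent.Results.MP_9e15c1_al.SolvabilityType

/-- the value `w(g, h)` of a word `w` in two letters -/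
def val {G : Type*} [Group G] (w : FreeGroup (Fin 2)) (g h : G) : G := FreeGroup.lift ![g, h] w

/-- the values of `w_{∘N}`: `w_{∘1} = w` and `w_{∘(k+1)}(g, h) = w(w_{∘k}(g, h), h)`; here
`circ w 0 g h = g` -/
def circ {G : Type*} [Group G] (w : FreeGroup (Fin 2)) : ℕ → G → G → G
  | 0, g, _ => g
  | k + 1, g, h => val w (circ w k g h) h

/-- the values of `w_{⋆N}` at the first `2^N` terms of a sequence: `w_{⋆1}(y) = w(y₀, y₁)` and
`w_{⋆(k+1)}(y) = w(w_{⋆k}(first half), w_{⋆k}(second half))`; here `star w 0 y = y 0` -/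
def star {G : Type*} [Group G] (w : FreeGroup (Fin 2)) : ℕ → (ℕ → G) → G
  | 0, y => y 0
  | k + 1, y => val w (star w k y) (star w k fun i => y (2 ^ k + i))

/-- `G` satisfies `w` as an Engel type iterated identity -/
def EngelType (G : Type*) [Group G] (w : FreeGroup (Fin 2)) : Prop :=
  ∀ g h : G, ∃ N : ℕ, 1 ≤ N ∧ circ w N g h = 1

/-- `G` satisfies `w` as a solvability type iterated identity: for all `g`, `h` there is `N ≥ 1` such
that `w_{⋆N}(y) = 1` for every choice of the terms of `y` in `{g, h}` -/
def SolvType (G : Type*) [Group G] (w : FreeGroup (Fin 2)) : Prop :=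
  ∀ g h : G, ∃ N : ℕ, 1 ≤ N ∧ ∀ y : ℕ → G, (∀ i < 2 ^ N, y i = g ∨ y i = h) → star w N y = 1

/-- Adyan's word `(x₁^{rn} x₂^{rn} x₁^{-rn} x₂^{-rn})^n` -/
def adyan (n r : ℕ) : FreeGroup (Fin 2) :=
  (FreeGroup.of 0 ^ (r * n) * FreeGroup.of 1 ^ (r * n) * (FreeGroup.of 0 ^ (r * n))⁻¹ *
    (FreeGroup.of 1 ^ (r * n))⁻¹) ^ n

/-- the family `w_{n,r}`, `r` an odd prime, is independent with respect to the satisfaction relation
`Sat` -/
def Independent (Sat : ∀ (G : Type) [Group G], FreeGroup (Fin 2) → Prop) (n : ℕ) : Prop :=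
  ∀ r : ℕ, r.Prime → Odd r → ∃ (G : Type) (_ : Group G),
    (∀ s : ℕ, s.Prime → Odd s → s ≠ r → Sat G (adyan n s)) ∧ ¬ Sat G (adyan n r)

theorem val_adyan {G : Type*} [Group G] (n r : ℕ) (g h : G) : val (adyan n r) g h =
    (g ^ (r * n) * h ^ (r * n) * (g ^ (r * n))⁻¹ * (h ^ (r * n))⁻¹) ^ n := by
  simp [val, adyan]

theorem val_adyan_of_commute {G : Type*} [Group G] (n r : ℕ) {g h : G} (c : g * h = h * g) :
    val (adyan n r) g h = 1 := by
  have h1 : g ^ (r * n) * h ^ (r * n) = h ^ (r * n) * g ^ (r * n) :=
    ((Commute.pow_pow (show Commute g h from c) (r * n) (r * n)) : _)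
  rw [val_adyan, h1]
  simp

theorem val_adyan_swap {G : Type*} [Group G] (n r : ℕ) (g h : G) :
    val (adyan n r) h g = (val (adyan n r) g h)⁻¹ := by
  rw [val_adyan, val_adyan]
  generalize g ^ (r * n) = a
  generalize h ^ (r * n) = b
  rw [← inv_pow]
  have e : b * a * b⁻¹ * a⁻¹ = (a * b * a⁻¹ * b⁻¹)⁻¹ := by group
  rw [e]

/-- every group satisfies Adyan's words as solvability type iterated identities -/
theorem solvType_adyan (G : Type*) [Group G] (n r : ℕ) : SolvType G (adyan n r) := by
  intro g h
  refine ⟨2, by norm_num, fun y hy => ?_⟩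
  have h0 := hy 0 (by norm_num)
  have h1 := hy 1 (by norm_num)
  have h2 := hy 2 (by norm_num)
  have h3 := hy 3 (by norm_num)
  have key : ∀ a b : G, (a = g ∨ a = h) → (b = g ∨ b = h) →
      val (adyan n r) a b = 1 ∨ val (adyan n r) a b = val (adyan n r) g h ∨
        val (adyan n r) a b = (val (adyan n r) g h)⁻¹ := by
    rintro a b (rfl | rfl) (rfl | rfl)
    · exact Or.inl (val_adyan_of_commute n r rfl)
    · exact Or.inr (Or.inl rfl)
    · exact Or.inr (Or.inr (val_adyan_swap n r _ _))
    · exact Or.inl (val_adyan_of_commute n r rfl)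
  have e : star (adyan n r) 2 y =
      val (adyan n r) (val (adyan n r) (y 0) (y 1)) (val (adyan n r) (y 2) (y 3)) := by
    simp [star]
  rw [e]
  apply val_adyan_of_commute
  rcases key _ _ h0 h1 with k1 | k1 | k1 <;> rcases key _ _ h2 h3 with k2 | k2 | k2 <;>
    rw [k1, k2] <;> simp

/-- **Adyan's identities are not independent as solvability type iterated identities.** (1) For all
`n` and `r`, every group satisfies `w_{n,r}` as a solvability type iterated identity. (2) For every
`n` the family `w_{n,r}`, `r` an odd prime, is not independent as solvability type iterated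
identities. (3) So there is no `n₀` such that for all odd `n ≥ n₀` the family is independent both as
Engel type and as solvability type iterated identities. -/
theorem result :
    (∀ (n r : ℕ) (G : Type) [Group G], SolvType G (adyan n r)) ∧
    (∀ n : ℕ, ¬ Independent (fun G _ w => SolvType G w) n) ∧
    ¬ ∃ n₀ : ℕ, ∀ n : ℕ, n₀ ≤ n → Odd n →
      Independent (fun G _ w => EngelType G w) n ∧ Independent (fun G _ w => SolvType G w) n := by
  have h2 : ∀ n : ℕ, ¬ Independent (fun G _ w => SolvType G w) n := by
    intro n hn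
    obtain ⟨G, _, _, h⟩ := hn 3 (by norm_num) (by decide)
    exact h (solvType_adyan G n 3)
  refine ⟨fun n r G _ => solvType_adyan G n r, h2, ?_⟩
  rintro ⟨n₀, hn⟩
  exact h2 (2 * n₀ + 1) (hn (2 * n₀ + 1) (by omega) (by exact ⟨n₀, rfl⟩)).2

end Pool.Agent.Results.MP_9e15c1_al.SolvabilityType
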